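import Pool.Agent.Q43.GA.Fin

set_option autoImplicit false

namespace Pool.Agent.Results.MP_acc225_nt.NonConvergence

open Finset Filter Topology Pool.Agent.Q43.GA

/-- The square `Q_N = {n : |Re n| < N, |Im n| < N}`. -/
noncomputable def Q (N : ℕ) : Finset GaussianInt :=
  (Ioo (-(N : ℤ)) N ×ˢ Ioo (-(N : ℤ)) N).image (fun z => (⟨z.1, z.2⟩ : GaussianInt))

/-- The shifted square `Φ_N = ⌊N^(1+ε)⌋ + Q_N`. -/
noncomputable def Phi (ε : ℝ) (N : ℕ) : Finset GaussianInt :=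
  (Q N).image (fun n => ((⌊(N : ℝ) ^ (1 + ε)⌋ : ℤ) : GaussianInt) + n)

/-- The average of `f` over a finite set. -/
noncomputable def avg (f : GaussianInt → ℝ) (Φ : Finset GaussianInt) : ℝ :=
  (∑ n ∈ Φ, f n) / (Φ.card : ℝ)

theorem Phi_eq (ε : ℝ) (N : ℕ) :
    Phi ε N = (Phi0 ε N).image (fun z => (⟨z.1, z.2⟩ : GaussianInt)) := by
  ext g
  unfold Phi Q
  simp only [mem_image, mem_product, mem_Ioo, mem_Phi0, Prod.exists]
  constructor
  · rintro ⟨g', ⟨x, y, ⟨⟨h1, h2⟩, h3, h4⟩, rfl⟩, rfl⟩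
    refine ⟨⌊(N : ℝ) ^ (1 + ε)⌋ + x, y, ⟨⟨by omega, by omega⟩, h3, h4⟩, ?_⟩
    apply Zsqrtd.ext <;> simp
  · rintro ⟨x, y, ⟨⟨h1, h2⟩, h3, h4⟩, rfl⟩
    refine ⟨⟨x - ⌊(N : ℝ) ^ (1 + ε)⌋, y⟩, ⟨x - ⌊(N : ℝ) ^ (1 + ε)⌋, y,
      ⟨⟨by omega, by omega⟩, h3, h4⟩, rfl⟩, ?_⟩
    apply Zsqrtd.ext <;> simp

theorem inj_pair : Function.Injective (fun z : ℤ × ℤ => (⟨z.1, z.2⟩ : GaussianInt)) := by
  intro z w h
  simp only [Zsqrtd.ext_iff] at h
  exact Prod.ext h.1 h.2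

theorem avg_eq (f : GaussianInt → ℝ) (ε : ℝ) (N : ℕ) :
    avg f (Phi ε N) = (∑ z ∈ Phi0 ε N, f ⟨z.1, z.2⟩) / (#(Phi0 ε N) : ℝ) := by
  unfold avg
  rw [Phi_eq, sum_image fun z _ w _ h => inj_pair h, card_image_of_injective _ inj_pair]

open Classical in
/-- The indicator function of the Gaussian integers whose norm has no prime factor in `S`. -/
noncomputable def ind (S : ℕ → Prop) (g : GaussianInt) : ℝ :=
  if ∃ p : ℕ, p.Prime ∧ S p ∧ p ∣ g.norm.natAbs then 0 else 1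

theorem ind_mul (S : ℕ → Prop) (m n : GaussianInt) : ind S (m * n) = ind S m * ind S n := by
  unfold ind
  have h : (∃ p : ℕ, p.Prime ∧ S p ∧ p ∣ (m * n).norm.natAbs) ↔
      ((∃ p : ℕ, p.Prime ∧ S p ∧ p ∣ m.norm.natAbs) ∨ (∃ p : ℕ, p.Prime ∧ S p ∧ p ∣ n.norm.natAbs)) := by
    rw [Zsqrtd.norm_mul, Int.natAbs_mul]
    constructor
    · rintro ⟨p, hp, hS, hd⟩
      rcases (hp.dvd_mul).1 hd with h | h
      · exact Or.inl ⟨p, hp, hS, h⟩
      · exact Or.inr ⟨p, hp, hS, h⟩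
    · rintro (⟨p, hp, hS, hd⟩ | ⟨p, hp, hS, hd⟩)
      · exact ⟨p, hp, hS, Dvd.dvd.mul_right hd _⟩
      · exact ⟨p, hp, hS, Dvd.dvd.mul_left hd _⟩
  by_cases h1 : ∃ p : ℕ, p.Prime ∧ S p ∧ p ∣ m.norm.natAbs
  · rw [if_pos (h.2 (Or.inl h1)), if_pos h1, zero_mul]
  · by_cases h2 : ∃ p : ℕ, p.Prime ∧ S p ∧ p ∣ n.norm.natAbs
    · rw [if_pos (h.2 (Or.inr h2)), if_pos h2, mul_zero]
    · rw [if_neg (fun h3 => (h.1 h3).elim h1 h2), if_neg h1, if_neg h2, one_mul]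

theorem norm_pair (z : ℤ × ℤ) : ((⟨z.1, z.2⟩ : GaussianInt).norm).natAbs = nrm z := by
  unfold nrm
  rw [Zsqrtd.norm_def]
  congr 1
  simp only
  ring

open Classical in
/-- averages of `ind` through the number of bad pairs -/
theorem avg_ind (S : ℕ → Prop) (ε : ℝ) (N : ℕ) (hN : 1 ≤ N) :
    avg (ind S) (Phi ε N) = 1 -
      (#{z ∈ Phi0 ε N | ∃ p : ℕ, p.Prime ∧ S p ∧ p ∣ nrm z} : ℝ) / (#(Phi0 ε N) : ℝ) := by
  rw [avg_eq]
  have hc : (0 : ℝ) < #(Phi0 ε N) := by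
    rw [card_Phi0 ε N hN]
    have : 0 < (2 * N - 1) ^ 2 := by
      have : 0 < 2 * N - 1 := by omega
      positivity
    exact_mod_cast this
  have h1 : ∑ z ∈ Phi0 ε N, ind S ⟨z.1, z.2⟩ = (#(Phi0 ε N) : ℝ) -
      #{z ∈ Phi0 ε N | ∃ p : ℕ, p.Prime ∧ S p ∧ p ∣ nrm z} := by
    have h2 : ∀ z ∈ Phi0 ε N, ind S ⟨z.1, z.2⟩ =
        1 - (if ∃ p : ℕ, p.Prime ∧ S p ∧ p ∣ nrm z then (1 : ℝ) else 0) := by
      intro z _
      unfold ind
      rw [norm_pair]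
      split_ifs <;> simp
    rw [sum_congr rfl h2, sum_sub_distrib, ← sum_filter, sum_const, sum_const, nsmul_eq_mul,
      nsmul_eq_mul, mul_one, mul_one]
  rw [h1, sub_div, div_self hc.ne']

/-- the scales -/
noncomputable def NN (ε : ℝ) (thr : ℕ → ℕ) (n0 : ℕ) : ℕ → ℕ
  | 0 => max (thr 0) n0
  | k + 1 => max (thr (k + 1))
      (⌈5 * (((NN ε thr n0 k) ^ 3 * (k + 1) : ℕ) : ℝ) ^ (2 + 2 * ε)⌉₊ + NN ε thr n0 k + 1)

open Classical in
/-- **Full answer (disproof).** -/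
theorem result : ∀ ε : ℝ, 0 < ε → ∃ f : GaussianInt → ℝ,
    (∀ m n : GaussianInt, m ≠ 0 → n ≠ 0 → f (m * n) = f m * f n) ∧
    (∃ C : ℝ, ∀ n : GaussianInt, n ≠ 0 → |f n| ≤ C) ∧
    ¬ ∃ L : ℝ, Tendsto (fun N : ℕ => avg f (Phi ε N)) atTop (𝓝 L) := by
  intro ε hε
  obtain ⟨c, hc, hkey⟩ := key ε hε
  have hR0 : 0 < 2 + ε := by linarith
  set K0 : ℕ := ⌈1024 * (2 + ε) / c⌉₊ + 1 with hK0
  have hK01 : 1 ≤ K0 := by omega
  have hK0R : 1024 * (2 + ε) / c ≤ K0 := by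
    rw [hK0]; push_cast
    have := Nat.le_ceil (1024 * (2 + ε) / c)
    linarith
  have hK0R1 : (1 : ℝ) ≤ K0 := by exact_mod_cast hK01
  set KK : ℕ → ℕ := fun k => K0 * 2 ^ k with hKK
  have hKK1 : ∀ k, 1 ≤ KK k := fun k => by
    have : 0 < KK k := by positivity
    omega
  have hthr : ∀ k : ℕ, ∃ t : ℕ, ∀ N ≥ t, ∃ S : Finset (ℤ × ℤ), S ⊆ Phi0 ε N ∧
      (∀ z ∈ S, ∃ p : ℕ, p.Prime ∧ (KK k) ^ 2 * N ^ 2 < p ∧ p ∣ (z.1 ^ 2 + z.2 ^ 2).natAbs) ∧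
      c * (N : ℝ) ^ 2 ≤ #S := fun k => eventually_atTop.1 (hkey (KK k) (hKK1 k))
  choose thr hthr using hthr
  set n0 : ℕ := ⌈1024 * (2 + ε) / c⌉₊ + 3 with hn0
  set N : ℕ → ℕ := NN ε thr n0 with hN
  have hNsucc : ∀ k, N (k + 1) = max (thr (k + 1))
      (⌈5 * (((N k) ^ 3 * (k + 1) : ℕ) : ℝ) ^ (2 + 2 * ε)⌉₊ + N k + 1) := fun k => rfl
  have hNzero : N 0 = max (thr 0) n0 := rfl
  have hNthr : ∀ k, thr k ≤ N k := by
    intro k
    cases k with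
    | zero => rw [hNzero]; exact le_max_left _ _
    | succ k => rw [hNsucc]; exact le_max_left _ _
  have hNlt : ∀ k, N k < N (k + 1) := by
    intro k
    rw [hNsucc]
    exact lt_of_lt_of_le (by omega) (le_max_right _ _)
  have hNmono : StrictMono N := strictMono_nat_of_lt_succ hNlt
  have hNn0 : ∀ k, n0 ≤ N k := by
    intro k
    have h1 : N 0 ≤ N k := hNmono.monotone (Nat.zero_le k)
    rw [hNzero] at h1
    exact (le_max_right _ _).trans h1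
  have hN3 : ∀ k, 3 ≤ N k := fun k => by
    have := hNn0 k
    omega
  set MM : ℕ → ℕ := fun k => (N k) ^ 3 * (k + 1) with hMM
  have hMM1 : ∀ k, 1 ≤ MM k := by
    intro k
    have h1 := hN3 k
    have : 0 < MM k := by
      simp only [hMM]; positivity
    omega
  have hMMN : ∀ k, N k ≤ MM k := by
    intro k
    simp only [hMM]
    calc N k ≤ (N k) ^ 3 := Nat.le_self_pow (by norm_num) _
      _ ≤ (N k) ^ 3 * (k + 1) := Nat.le_mul_of_pos_right _ (by omega)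
  -- the primes
  set S : ℕ → Prop := fun p => ∃ k, p ∈ PK ε (KK k) (N k) with hS
  refine ⟨ind S, fun m n _ _ => ind_mul S m n, ⟨1, fun n _ => ?_⟩, ?_⟩
  · unfold ind
    split_ifs <;> simp
  rintro ⟨L, hL⟩
  -- along `N k`
  have hlow : ∀ k, avg (ind S) (Phi ε (N k)) ≤ 1 - c / 4 := by
    intro k
    have hk1 : 1 ≤ N k := by have := hN3 k; omega
    rw [avg_ind S ε (N k) hk1]
    obtain ⟨U, hU1, hU2, hU3⟩ := hthr k (N k) (hNthr k)
    have hsub : U ⊆ {z ∈ Phi0 ε (N k) | ∃ p : ℕ, p.Prime ∧ S p ∧ p ∣ nrm z} := by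
      intro z hz
      obtain ⟨p, hp, hpl, hpd⟩ := hU2 z hz
      refine mem_filter.2 ⟨hU1 hz, p, hp, ⟨k, ?_⟩, hpd⟩
      rw [mem_PK]
      exact ⟨⟨z, hU1 hz, hp, hpd, (nrm_le hε hk1 (hU1 hz)).1.ne'⟩, hpl⟩
    have h1 : c * (N k : ℝ) ^ 2 ≤
        #{z ∈ Phi0 ε (N k) | ∃ p : ℕ, p.Prime ∧ S p ∧ p ∣ nrm z} :=
      hU3.trans (by exact_mod_cast card_le_card hsub)
    have hcard : (#(Phi0 ε (N k)) : ℝ) ≤ 4 * (N k : ℝ) ^ 2 := by
      rw [card_Phi0 ε _ hk1]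
      have h2 : (2 * N k - 1) ^ 2 ≤ 4 * (N k) ^ 2 := by
        calc (2 * N k - 1) ^ 2 ≤ (2 * N k) ^ 2 := Nat.pow_le_pow_left (by omega) 2
          _ = 4 * (N k) ^ 2 := by ring
      exact_mod_cast h2
    have hcpos : (0 : ℝ) < #(Phi0 ε (N k)) := by
      rw [card_Phi0 ε _ hk1]
      have : 0 < (2 * N k - 1) ^ 2 := by
        have : 0 < 2 * N k - 1 := by omega
        positivity
      exact_mod_cast this
    have h3 : c / 4 ≤ (#{z ∈ Phi0 ε (N k) | ∃ p : ℕ, p.Prime ∧ S p ∧ p ∣ nrm z} : ℝ) /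
        (#(Phi0 ε (N k)) : ℝ) := by
      rw [le_div_iff₀ hcpos]
      refine le_trans ?_ h1
      have := mul_le_mul_of_nonneg_left hcard (show 0 ≤ c / 4 by positivity)
      linarith
    linarith
  -- along `MM k`
  have hhigh : ∀ k, 1 - c / 8 ≤ avg (ind S) (Phi ε (MM k)) := by
    intro k
    rw [avg_ind S ε (MM k) (hMM1 k)]
    set M := MM k with hM
    have hM1 := hMM1 k
    have hM0 : (0 : ℝ) < M := by exact_mod_cast (by omega : 0 < M)
    -- the bad set is covered by the first `k + 1` families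
    have hsub : {z ∈ Phi0 ε M | ∃ p : ℕ, p.Prime ∧ S p ∧ p ∣ nrm z} ⊆
        (range (k + 1)).biUnion (fun j => (PK ε (KK j) (N j)).biUnion
          (fun p => {z ∈ Phi0 ε M | p ∣ nrm z})) := by
      intro z hz
      rw [mem_filter] at hz
      obtain ⟨hz1, p, hp, ⟨j, hj⟩, hpd⟩ := hz
      rw [mem_biUnion]
      refine ⟨j, ?_, mem_biUnion.2 ⟨p, hj, mem_filter.2 ⟨hz1, hpd⟩⟩⟩
      rw [mem_range]
      by_contra hlt
      have hkj : k + 1 ≤ j := by omega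
      have h1 : N (k + 1) ≤ N j := hNmono.monotone hkj
      obtain ⟨h2, h3⟩ := nrm_le hε hM1 hz1
      have h4 := (mem_PK.1 hj).2
      have h5 : p ≤ nrm z := Nat.le_of_dvd h2 hpd
      have h6 : nrm z < N (k + 1) := by
        have h7 : (nrm z : ℝ) ≤ ⌈5 * (M : ℝ) ^ (2 + 2 * ε)⌉₊ := h3.trans (Nat.le_ceil _)
        have h8 : nrm z ≤ ⌈5 * (M : ℝ) ^ (2 + 2 * ε)⌉₊ := by exact_mod_cast h7
        rw [hNsucc]
        refine lt_of_lt_of_le ?_ (le_max_right _ _)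
        have h9 : ⌈5 * (M : ℝ) ^ (2 + 2 * ε)⌉₊ =
            ⌈5 * (((N k) ^ 3 * (k + 1) : ℕ) : ℝ) ^ (2 + 2 * ε)⌉₊ := rfl
        omega
      have h10 : N j ≤ (KK j) ^ 2 * (N j) ^ 2 := by
        have e1 : 1 ≤ (KK j) ^ 2 := Nat.one_le_pow _ _ (hKK1 j)
        have e2 : N j ≤ (N j) ^ 2 := Nat.le_self_pow two_ne_zero _
        nlinarith
      omega
    have hterm : ∀ j ∈ range (k + 1), ∀ p ∈ PK ε (KK j) (N j),
        (#{z ∈ Phi0 ε M | p ∣ nrm z} : ℝ) ≤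
          8 * (M : ℝ) ^ 2 / ((KK j : ℝ) ^ 2 * (N j : ℝ) ^ 2) + 4 * M := by
      intro j _ p hp
      rw [mem_PK] at hp
      obtain ⟨⟨w, _, hpp, _⟩, hpl⟩ := hp
      refine (phi_count hpp ε M).trans ?_
      have hj0 : (0 : ℝ) < (KK j : ℝ) ^ 2 * (N j : ℝ) ^ 2 := by
        have h1 : (0 : ℝ) < KK j := by exact_mod_cast (by have := hKK1 j; omega : 0 < KK j)
        have h2 : (0 : ℝ) < N j := by exact_mod_cast (by have := hN3 j; omega : 0 < N j)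
        positivity
      have h1 : (KK j : ℝ) ^ 2 * (N j : ℝ) ^ 2 ≤ p := by exact_mod_cast hpl.le
      have h2 : 8 * (M : ℝ) ^ 2 / p ≤ 8 * (M : ℝ) ^ 2 / ((KK j : ℝ) ^ 2 * (N j : ℝ) ^ 2) :=
        div_le_div_of_nonneg_left (by positivity) hj0 h1
      linarith
    have hcnt : (#{z ∈ Phi0 ε M | ∃ p : ℕ, p.Prime ∧ S p ∧ p ∣ nrm z} : ℝ) ≤
        ∑ j ∈ range (k + 1), (4 * (2 + ε) * (N j : ℝ) ^ 2) *
          (8 * (M : ℝ) ^ 2 / ((KK j : ℝ) ^ 2 * (N j : ℝ) ^ 2) + 4 * M) := by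
      calc (#{z ∈ Phi0 ε M | ∃ p : ℕ, p.Prime ∧ S p ∧ p ∣ nrm z} : ℝ) ≤
          ((∑ j ∈ range (k + 1), ∑ p ∈ PK ε (KK j) (N j), #{z ∈ Phi0 ε M | p ∣ nrm z} : ℕ) : ℝ) := by
            rw [Nat.cast_le]
            refine (card_le_card hsub).trans (card_biUnion_le.trans ?_)
            apply sum_le_sum
            intro j _
            exact card_biUnion_le
        _ = ∑ j ∈ range (k + 1), ∑ p ∈ PK ε (KK j) (N j), (#{z ∈ Phi0 ε M | p ∣ nrm z} : ℝ) := by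
            push_cast; rfl
        _ ≤ ∑ j ∈ range (k + 1), ∑ p ∈ PK ε (KK j) (N j),
            (8 * (M : ℝ) ^ 2 / ((KK j : ℝ) ^ 2 * (N j : ℝ) ^ 2) + 4 * M) := by
            apply sum_le_sum
            intro j hj
            exact sum_le_sum (hterm j hj)
        _ = ∑ j ∈ range (k + 1), (#(PK ε (KK j) (N j)) : ℝ) *
            (8 * (M : ℝ) ^ 2 / ((KK j : ℝ) ^ 2 * (N j : ℝ) ^ 2) + 4 * M) := by
            apply sum_congr rfl
            intro j _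
            rw [sum_const, nsmul_eq_mul]
        _ ≤ _ := by
            apply sum_le_sum
            intro j _
            apply mul_le_mul_of_nonneg_right (card_PK hε (hKK1 j) (hN3 j))
            positivity
    have hsum1 : ∑ j ∈ range (k + 1), (4 * (2 + ε) * (N j : ℝ) ^ 2) *
          (8 * (M : ℝ) ^ 2 / ((KK j : ℝ) ^ 2 * (N j : ℝ) ^ 2) + 4 * M) ≤
        64 * (2 + ε) * (M : ℝ) ^ 2 / K0 + 16 * (2 + ε) * (M : ℝ) ^ 2 / N k := by
      have hj : ∀ j ∈ range (k + 1), (4 * (2 + ε) * (N j : ℝ) ^ 2) *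
          (8 * (M : ℝ) ^ 2 / ((KK j : ℝ) ^ 2 * (N j : ℝ) ^ 2) + 4 * M) ≤
          32 * (2 + ε) * (M : ℝ) ^ 2 / K0 * (1 / 2) ^ j + 16 * (2 + ε) * (N k : ℝ) ^ 2 * M := by
        intro j hj
        have hjk : j ≤ k := by
          have := mem_range.1 hj
          omega
        have hNj : (0 : ℝ) < N j := by exact_mod_cast (by have := hN3 j; omega : 0 < N j)
        have hKj : (KK j : ℝ) = K0 * 2 ^ j := by simp only [hKK]; push_cast; ring
        have hNjk : (N j : ℝ) ^ 2 ≤ (N k : ℝ) ^ 2 := by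
          apply pow_le_pow_left₀ hNj.le
          exact_mod_cast hNmono.monotone hjk
        have hK0p : (0 : ℝ) < K0 := by linarith
        have e1 : (4 * (2 + ε) * (N j : ℝ) ^ 2) * (8 * (M : ℝ) ^ 2 / ((KK j : ℝ) ^ 2 * (N j : ℝ) ^ 2)) =
            32 * (2 + ε) * (M : ℝ) ^ 2 * (1 / (KK j : ℝ) ^ 2) := by
          have hKjp : (0 : ℝ) < KK j := by rw [hKj]; positivity
          field_simp
          ring
        have e2 : 1 / (KK j : ℝ) ^ 2 ≤ 1 / K0 * (1 / 2) ^ j := by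
          have e0 : 1 / (K0 : ℝ) * (1 / 2) ^ j = 1 / (K0 * 2 ^ j) := by
            rw [one_div_pow]; field_simp
          rw [hKj, e0]
          apply one_div_le_one_div_of_le (by positivity)
          have h2j : (1 : ℝ) ≤ 2 ^ j := one_le_pow₀ (by norm_num)
          have h3 : (1 : ℝ) ≤ K0 * 2 ^ j := by nlinarith
          nlinarith
        rw [mul_add, e1]
        have e3 : 32 * (2 + ε) * (M : ℝ) ^ 2 * (1 / (KK j : ℝ) ^ 2) ≤
            32 * (2 + ε) * (M : ℝ) ^ 2 * (1 / K0 * (1 / 2) ^ j) :=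
          mul_le_mul_of_nonneg_left e2 (by positivity)
        have e4 : (4 * (2 + ε) * (N j : ℝ) ^ 2) * (4 * M) ≤ 16 * (2 + ε) * (N k : ℝ) ^ 2 * M := by
          have := mul_le_mul_of_nonneg_left hNjk (show 0 ≤ 16 * (2 + ε) * (M : ℝ) by positivity)
          linarith
        have e5 : 32 * (2 + ε) * (M : ℝ) ^ 2 * (1 / K0 * (1 / 2) ^ j) =
            32 * (2 + ε) * (M : ℝ) ^ 2 / K0 * (1 / 2) ^ j := by ring
        linarith
      refine (sum_le_sum hj).trans ?_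
      rw [sum_add_distrib, ← mul_sum, sum_const, card_range, nsmul_eq_mul]
      have hgeo : ∑ j ∈ range (k + 1), ((1 : ℝ) / 2) ^ j ≤ 2 := by
        exact sum_geometric_two_le (k + 1)
      have hK0p : (0 : ℝ) < K0 := by linarith
      have e1 : 32 * (2 + ε) * (M : ℝ) ^ 2 / K0 * ∑ j ∈ range (k + 1), ((1 : ℝ) / 2) ^ j ≤
          32 * (2 + ε) * (M : ℝ) ^ 2 / K0 * 2 := mul_le_mul_of_nonneg_left hgeo (by positivity)
      have hNk : (0 : ℝ) < N k := by exact_mod_cast (by have := hN3 k; omega : 0 < N k)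
      have e2 : ((k + 1 : ℕ) : ℝ) * (16 * (2 + ε) * (N k : ℝ) ^ 2 * M) =
          16 * (2 + ε) * (M : ℝ) ^ 2 / N k := by
        have hMe : (M : ℝ) = (N k : ℝ) ^ 3 * (k + 1) := by
          rw [hM]; simp only [hMM]; push_cast; ring
        have e3 : (M : ℝ) ^ 2 = M * ((N k : ℝ) ^ 3 * (k + 1)) := by
          rw [sq]; nth_rewrite 2 [hMe]; rfl
        rw [e3]
        push_cast
        field_simp
      rw [e2]
      have e4 : 32 * (2 + ε) * (M : ℝ) ^ 2 / K0 * 2 = 64 * (2 + ε) * (M : ℝ) ^ 2 / K0 := by ring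
      linarith
    have hNk : (0 : ℝ) < N k := by exact_mod_cast (by have := hN3 k; omega : 0 < N k)
    have hK0p : (0 : ℝ) < K0 := by linarith
    have hf1 : 64 * (2 + ε) * (M : ℝ) ^ 2 / K0 ≤ c / 16 * (M : ℝ) ^ 2 := by
      rw [div_le_iff₀ hK0p]
      rw [div_le_iff₀ hc] at hK0R
      have hM2 : (0 : ℝ) ≤ (M : ℝ) ^ 2 := by positivity
      have := mul_le_mul_of_nonneg_left hK0R hM2
      linarith
    have hf2 : 16 * (2 + ε) * (M : ℝ) ^ 2 / N k ≤ c / 64 * (M : ℝ) ^ 2 := by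
      rw [div_le_iff₀ hNk]
      have h1 : 1024 * (2 + ε) / c ≤ N k := by
        have h2 : 1024 * (2 + ε) / c ≤ n0 := by
          rw [hn0]; push_cast
          have := Nat.le_ceil (1024 * (2 + ε) / c)
          linarith
        have h3 : (n0 : ℝ) ≤ N k := by exact_mod_cast hNn0 k
        linarith
      rw [div_le_iff₀ hc] at h1
      have hM2 : (0 : ℝ) ≤ (M : ℝ) ^ 2 := by positivity
      have := mul_le_mul_of_nonneg_left h1 hM2
      linarith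
    have hcardM : (M : ℝ) ^ 2 ≤ (#(Phi0 ε M) : ℝ) := by
      rw [card_Phi0 ε _ hM1]
      have h2 : M ^ 2 ≤ (2 * M - 1) ^ 2 := Nat.pow_le_pow_left (by omega) 2
      exact_mod_cast h2
    have hcpos : (0 : ℝ) < #(Phi0 ε M) := by
      have : (0 : ℝ) < (M : ℝ) ^ 2 := by positivity
      linarith
    have hfin : (#{z ∈ Phi0 ε M | ∃ p : ℕ, p.Prime ∧ S p ∧ p ∣ nrm z} : ℝ) /
        (#(Phi0 ε M) : ℝ) ≤ c / 8 := by
      rw [div_le_iff₀ hcpos]
      have h1 := mul_le_mul_of_nonneg_left hcardM (show 0 ≤ c / 8 by positivity)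
      have hM2 : (0 : ℝ) ≤ (M : ℝ) ^ 2 := by positivity
      have h2 := mul_nonneg hc.le hM2
      linarith
    linarith
  -- no limit
  have hNt : Tendsto N atTop atTop := hNmono.tendsto_atTop
  have hMt : Tendsto MM atTop atTop := tendsto_atTop_mono hMMN hNt
  have hL1 : L ≤ 1 - c / 4 := le_of_tendsto (hL.comp hNt) (Eventually.of_forall hlow)
  have hL2 : 1 - c / 8 ≤ L := ge_of_tendsto (hL.comp hMt) (Eventually.of_forall hhigh)
  linarith

end Pool.Agent.Results.MP_acc225_nt.NonConvergence
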